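import Pool.Agent.H58.CT.Targets

/-!
# Cyclic terms: the product property
-/

set_option autoImplicit false
set_option linter.unusedVariables false

namespace Pool.Agent.H6.CT

open Pool.Agent.H58.CT

theorem pf_PRD (hATH : T_ATH) (hLNA : T_LNA) : T_PRD := by
  intro 𝒞 A _ _ p _ R hP hC k
  induction k with
  | zero =>
    intro _ N hN i x hx
    obtain ⟨n, hn⟩ := hN.1.1
    exact ⟨n, hn, funext fun j => j.elim0⟩
  | succ k ih =>
    intro hL N hN i x hx
    by_cases hk : k = 0
    · subst hk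
      obtain ⟨n, hn, hn'⟩ := hx 0
      refine ⟨n, hn, funext fun j => ?_⟩
      have hj : j = 0 := Fin.ext (Nat.lt_one_iff.1 j.2)
      subst hj
      exact hn'
    · have h1 : Lnk R (win i k) (fun r => r (i + ((k : ℕ) : ZMod p))) :=
        hL k (Nat.one_le_iff_ne_zero.2 hk) (Nat.lt_succ_self k) i
      have h2 : Lnk N (win i k) (fun r => r (i + ((k : ℕ) : ZMod p))) :=
        hLNA 𝒞 (ZMod p → A) (Fin k → A) A R N _ _ (hm_win i k) (hm_eval _) hN.1 h1
      have hk' : LkBelow R k := fun j hj hjk i' => hL j hj (Nat.lt_succ_of_lt hjk) i'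
      obtain ⟨r, hr, hr'⟩ := ih hk' N hN i (fun j => x (Fin.castSucc j))
        (fun j => hx (Fin.castSucc j))
      obtain ⟨r', hr1, hr2⟩ := hx (Fin.last k)
      obtain ⟨q, hq, hq1, hq2⟩ := hATH 𝒞 (ZMod p → A) (Fin k → A) A N (win i k)
        (fun r => r (i + ((k : ℕ) : ZMod p))) hP (hm_win i k) (hm_eval _) hN.1.2.1
        (af_image (hm_win i k) hN.2) (af_image (hm_eval (i + ((k : ℕ) : ZMod p))) hN.2) h2
        r hr r' hr1
      refine ⟨q, hq, funext fun j => ?_⟩
      refine Fin.lastCases ?_ (fun j => ?_) j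
      · exact hq2.trans hr2
      · have h3 := congrFun (hq1.trans hr') j
        exact h3

end Pool.Agent.H6.CT
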